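import Pool.Agent.N856.QB.Stm
import Pool.Agent.N875.X15.RcNc
import Pool.Agent.N875.X15.Short

/-!
# Project K21 (helper637): the 2-part of the strong conjecture of Birch and Swinnerton-Dyer for the curve
# `X_0(21) : y² + x y = x³ - 4 x - 1` over the imaginary quadratic fields

`E = X21` (`21a1`, minimal, `Δ = 3⁴ 7²`, split multiplicative reduction at `3`, nonsplit at `7`, torsion
`ℤ/2 × ℤ/4`), `y² = x (x - 9) (x + 7)` with `x = 4 X + 1`, `y = 8 Y + 4 X`; `K = ℚ(√m)`, `m < 0` squarefree, any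
residue class modulo `4`, `3` is inert in `K` (`m % 3 = 2`) and `7` is not inert (`m % 7 = 0, 1, 2, 4`). `t` is
the number of the primes that ramify in `K`. All the 2-Selmer classes over `K` are classes of pairs of
rational numbers, `#Sel_2(E/K) = 4 ^ t`, and `#Ш(E/K)[2^∞] = 4 ^ (t - 1)` if `K` has no class of order four.
The same as project K17 of helper875 (`Pool/Agent/N875/K17/Stm.lean`), for another curve: adapt those
files. The parts are independent.
-/

set_option autoImplicit false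
set_option linter.unusedVariables false

open NumberField IsDedekindDomain WeierstrassCurve Filter

namespace Pool.Agent.N637.K21

open scoped Classical

open Pool.Agent.TH841.SH (SelG IsR)
open Pool.Agent.N856.QB (Lo Se)
open Pool.Agent.N875.X15 (PR Fin2)
open Pool.Agent.Y682.XF (base a factor c Tam MinimalAt)

/-- the curve `X_0(21) : y² + x y = x³ - 4 x - 1` -/
def X21 : WeierstrassCurve ℤ := ⟨1, 0, 0, -4, -1⟩

/-- the minimal equation of the twist by the squarefree integer `m` (these are `WN m` and `Em m` of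
`Pool/Agent/N637/P21`): `y² + x y = x³ + ((25 m - 1) / 4) x² + 9 m² x` if `m ≡ 1` modulo `4`, and
`y² = x (x - 9 m) (x + 7 m)` otherwise -/
def Tw (m : ℤ) : WeierstrassCurve ℤ :=
  if m % 4 = 1 then ⟨1, (25 * m - 1) / 4, 0, 9 * m ^ 2, 0⟩ else ⟨0, -2 * m, 0, -63 * m ^ 2, 0⟩

/-- the setting: `K = ℚ(r)`, `r² = m`, `m < 0` squarefree, `3` inert, `7` not inert -/
structure Qd (m : ℤ) (K : Type) [Field K] [NumberField K] (r : K) : Prop where
  sq : Squarefree m
  neg : m < 0
  m3 : m % 3 = 2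
  m7 : m % 7 = 0 ∨ m % 7 = 1 ∨ m % 7 = 2 ∨ m % 7 = 4
  hr : r ^ 2 = (m : K)
  hK : ∀ x : K, ∃ a b : ℚ, x = (a : K) + (b : K) * r

/-- the local condition at the place `w` of `K` for the pair of integers `(a, b)` and the curve
`y² = x (x - 9) (x + 7)`: there is a point over `K_w` with `x a` and `(x - 9) b` squares (and `y ≠ 0`) -/
def LoE (K : Type) [Field K] [NumberField K] (w : HeightOneSpectrum (𝓞 K)) (a b : ℤ) : Prop :=
  Lo (w.adicCompletion K) 0 9 (-7) (a : w.adicCompletion K) (b : w.adicCompletion K)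

/-- K21-GN. Necessary condition at the places over `p ∤ 42 m` (good reduction, `p` unramified in `K`). -/
def S_GN : Prop := ∀ (m : ℤ) (K : Type) [Field K] [NumberField K] (r : K), Qd m K r →
  ∀ p : ℕ, p.Prime → ¬ (p : ℤ) ∣ 42 * m → ∀ w : HeightOneSpectrum (𝓞 K),
  ((p : ℕ) : 𝓞 K) ∈ w.asIdeal → ∀ a b : ℤ, Squarefree a → Squarefree b → LoE K w a b →
  ¬ (p : ℤ) ∣ a ∧ ¬ (p : ℤ) ∣ b

/-- K21-GU. Sufficient condition at the places over `p ∤ 42` (good reduction; if `p` divides `a` then it
divides `m` and `a` is a unit times a square in `K_w`): `N763.QB.all_units`, as in `N763/QB/U1.lean`. -/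
def S_GU : Prop := ∀ (m : ℤ) (K : Type) [Field K] [NumberField K] (r : K), Qd m K r →
  ∀ p : ℕ, p.Prime → ¬ p ∣ 42 → ∀ w : HeightOneSpectrum (𝓞 K),
  ((p : ℕ) : 𝓞 K) ∈ w.asIdeal → ∀ a b : ℤ, Squarefree a → Squarefree b →
  ((p : ℤ) ∣ a → (p : ℤ) ∣ m) → ((p : ℤ) ∣ b → (p : ℤ) ∣ m) → LoE K w a b

/-- the condition at `2` -/
def C2 (m a b : ℤ) : Prop := (m % 4 = 1 → a % 4 = 1 ∧ ¬ (2 : ℤ) ∣ b) ∧ (m % 4 = 3 → ¬ (2 : ℤ) ∣ a) ∧
  ((2 : ℤ) ∣ m → (a % 4 = 1 ∨ ((2 : ℤ) ∣ a ∧ ((a / 2) * (m / 2)) % 4 = 1)))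

/-- K21-2N. Necessary condition at the places over `2`. For a point over any finite extension `L` of `ℚ_2`
the class of `x` is that of `1 + 4 z`, `z` integral, and the class of `x - 9` has even valuation: write
`x = 4 X + 1`, so that `(4 X + 1) (X - 2) (X + 2) = (2 Y + X)²` and `x - 9` is `X - 2` up to squares, `e = v(2)`. If
`X` is not integral then its valuation is `-2 j` (twice `v(X) = 2 v(Y / X)`), `X² - 4 = X² (1 - 4 / X²)` is a
square (`v(4 / X²) ≥ 2 e + 4`) and so is `x`; and `v(X - 2) = v(X)` is even. If `X` is integral then `x = 1 + 4 X`;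
suppose that `s = v(X - 2)` is odd; then `v(X + 2)` is odd too (`v(1 + 4 X) = 0`), hence `s < v(4) = 2 e` (if
`s > 2 e` then `v(X + 2) = 2 e`, even; `s = 2 e` is not odd), `X - 2 = u π^s`,
`(X - 2) (X + 2) = (X - 2)² (1 + 4 / (X - 2))` and so `(1 + 4 / (X - 2)) (1 + 4 X)` is a square with
`v(4 / (X - 2)) = 2 e - s` odd and less than `2 e`: impossible (`1 + z` with `v(z)` odd, `< 2 e`, is not a square
times `1 + 4 z'`). Then if `a` is rational and `a (1 + 4 z)` is a square in `K_w`: `m = 1 mod 4` (`K_w`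
unramified): `a = 1 mod 4` (`N691.QB.b_form`); `m = 3 mod 4`: `a` is odd; `m` even: `a = 1 mod 4` if `a` is odd, and
apply this to `a m / 4` if `a` is even. (K17-2N is the same with `b` in the place of `a`.) -/
def S_2N : Prop := ∀ (m : ℤ) (K : Type) [Field K] [NumberField K] (r : K), Qd m K r →
  ∀ w : HeightOneSpectrum (𝓞 K), (2 : 𝓞 K) ∈ w.asIdeal →
  ∀ a b : ℤ, Squarefree a → Squarefree b → LoE K w a b → C2 m a b

/-- K21-2U. Sufficient condition at the places over `2` (the condition `C2` is verified numerically, in both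
directions). Up to squares of `K_w` (`m` is one) `a = 1 mod 4`, and, if `m` is not `3 mod 4`, `b` is odd: there is
a point over `ℚ_2` in each of the eight classes `a ∈ {1, 5}`, `b ∈ {1, 3, 5, 7}` modulo `8`; `x = 4 X + 1`, and
`x - 9` is `X - 2` up to squares. `a = 5`: `X = b + 2` (`X` odd: `(4 X + 1) (X² - 4)` is `5 * 5` modulo `8`); `a = 1`:
`X = 2 s` with `s² - 1` a square in `ℚ_2`, the class of `x - 9` is that of `2 (s - 1)`: `s = 23` gives `3`
(`528 = 16 * 33`, `44`), `s = 41` gives `5` (`1680 = 16 * 105`, `80`), `s = 223` gives `7` (`49728 = 64 * 777`, `444`);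
`(1, 1)` is trivial. If `m = 3 mod 4` and `b` is even: the class `(1, ± 2)` comes from a point over `ℚ_2` on the
twist by `m`: `m = 7 mod 8`: `x = 1`, `x - 9 = -8`, `y² = -64`, `-1` is a square in `K_w`; `m = 3 mod 8`: `x = 17`,
`x - 9 = 8`, `y² = 17 * 8 * 24 = 64 * 51`, and `51 = 3 mod 8` is `m` times a square of `ℚ_2`, `17` is a square; then
the sum with a point of the first kind (the classes are additive: `TH841/SH` has the algebra, see also
`R428/N`, `N891/QB/Glo.lean`). -/
def S_2U : Prop := ∀ (m : ℤ) (K : Type) [Field K] [NumberField K] (r : K), Qd m K r →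
  ∀ w : HeightOneSpectrum (𝓞 K), (2 : 𝓞 K) ∈ w.asIdeal →
  ∀ a b : ℤ, Squarefree a → Squarefree b → C2 m a b → LoE K w a b

/-- K21-3. The places over `3`: `K_w` is the unramified quadratic extension of `ℚ_3`, where all the integers
prime to `3` are squares. Necessary: `x + 7` is a square for every point: if `x` is not integral by Hensel; if
`x` is integral and `x = 0` in the residue field then `x + 7` is `1` there; otherwise `x`, `x - 9` are units and
`x (x - 9) = x²` in the residue field, a square, and so is `x + 7` (it is not zero; if `x + 7` is not a unit then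
`x` and `x - 9` are units and `x (x - 9)` is a square by Hensel, and so is `x + 7` up to squares). So `a b` is a
square in `K_w`. Sufficient: `(3, 3)` is the class of the point `x = 21` (`y = 84`), `(1, 1)` is trivial. -/
def S_3 : Prop := ∀ (m : ℤ) (K : Type) [Field K] [NumberField K] (r : K), Qd m K r →
  ∀ w : HeightOneSpectrum (𝓞 K), (3 : 𝓞 K) ∈ w.asIdeal →
  ∀ a b : ℤ, Squarefree a → Squarefree b → (LoE K w a b ↔ ((3 : ℤ) ∣ a ↔ (3 : ℤ) ∣ b))

/-- the condition at `7` -/
def C7 (m a b : ℤ) : Prop := ¬ (7 : ℤ) ∣ m → ¬ (7 : ℤ) ∣ b ∧ ((7 : ℤ) ∣ a ↔ jacobiSym b 7 = -1)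

/-- K21-7. The places over `7`; the residue field is `𝔽_7`, `-1` is not a square there. `7` split,
`K_w = ℚ_7`: the classes of the points are `(1, 1)`, `(-1, 1)` (`x = -1`, `y² = 60`), `(-7, -1)` (close to `x = 0`:
`x` times `-63` and `x - 9` times `-9` are squares) and `(7, -1)`. Necessary: if `x` is not integral, trivial; if
`x` is a unit and not `2` in the residue field: `x (x + 7)` is `x²` there, so that `x - 9` is a square up to the
unit square; `x = 2` there: `x (x + 7)` is a square by Hensel and so is `x - 9`, and `x = 2` is a square; `x` a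
non-unit: `x - 9` is `-9`, a non-square unit, so that `x (x + 7)` is a non-square unit times a square, and then
`v(x)` is odd (if `v(x) ≥ 2` then `x + 7` is `7` times a square and `x` is `-7` up to squares; if `v(x) = 1`, clear).
`7` ramified: `a` and `b` are units of `K_w` up to squares and all the four classes occur: `(-1, 1)` from
`x = -1`, `(-7, -1)` from the point of order two (`-7` is the unit `m / 7` up to squares). -/
def S_7 : Prop := ∀ (m : ℤ) (K : Type) [Field K] [NumberField K] (r : K), Qd m K r →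
  ∀ w : HeightOneSpectrum (𝓞 K), (7 : 𝓞 K) ∈ w.asIdeal →
  ∀ a b : ℤ, Squarefree a → Squarefree b → (LoE K w a b ↔ C7 m a b)

/-- K21-INF. The infinite places are complex: there is always a point. -/
def S_INF : Prop := ∀ (m : ℤ) (K : Type) [Field K] [NumberField K] (r : K), Qd m K r →
  ∀ v : InfinitePlace K, ∀ a b : ℤ, a ≠ 0 → b ≠ 0 →
  Lo v.Completion 0 9 (-7) (a : v.Completion) (b : v.Completion)

/-- the classes -/
structure Rel (m a b : ℤ) : Prop where
  sa : Squarefree a
  sb : Squarefree b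
  da : ∀ p : ℕ, p.Prime → p ≠ 2 → p ≠ 3 → p ≠ 7 → (p : ℤ) ∣ a → (p : ℤ) ∣ m
  db : ∀ p : ℕ, p.Prime → p ≠ 2 → p ≠ 3 → p ≠ 7 → (p : ℤ) ∣ b → (p : ℤ) ∣ m
  c2 : C2 m a b
  c3 : (3 : ℤ) ∣ a ↔ (3 : ℤ) ∣ b
  c7 : C7 m a b

/-- equality of square classes of `K` -/
def Eqv (m a b : ℤ) : Prop := IsSquare (a * b) ∨ IsSquare (a * b * m)

/-- K21-CNT. The number of the classes: `4 ^ t`. Modulo `m`: `b = b₀ 3^α`, `a = a₀ 3^α 7^β` (`β = 0` if `7 ∣ m`), with
`a₀`, `b₀` in the group generated by `-1` and the `t` ramified primes, modulo `m`: each has `2 ^ t` classes. The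
condition `C7` determines `β`, and `C2` halves the number of the `a₀`: `m = 1 mod 4`: the sign of `a₀` is
determined; `m = 3 mod 4`: `a₀` is odd; `m` even: one can arrange `a` odd, and then its sign is determined. So there
are `2 * 2 ^ t * 2 ^ (t - 1)` classes. (Choose a prime `q ∣ m`, `q = 2` if `m` is even, `q = 7` if `m = -7`, and
representatives which are prime to `q`, as in `N574/QB`; `m ≠ -1` since `7` is not inert. Verified numerically for `-m < 400`.) -/
def S_CNT : Prop := ∀ m : ℤ, Squarefree m → m < 0 → m % 3 = 2 →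
  (m % 7 = 0 ∨ m % 7 = 1 ∨ m % 7 = 2 ∨ m % 7 = 4) →
  ∃ S : Finset (ℤ × ℤ), (∀ z ∈ S, Rel m z.1 z.2) ∧
    (∀ z ∈ S, ∀ z' ∈ S, Eqv m z.1 z'.1 → Eqv m z.2 z'.2 → z = z') ∧
    (∀ a b : ℤ, Rel m a b → ∃ z ∈ S, Eqv m a z.1 ∧ Eqv m b z.2) ∧
    S.card = 4 ^ (PR m).card

/-- K21-SQ. The 2-Selmer group over `ℚ`: the four classes of the torsion points. (`a = 1 mod 4`, `b` odd at
`2`; `b` prime to `7` at `7`; `a b` a square in `ℚ_3`; units at the other primes; as in `R432/E15.lean`.) And
the group of the points over `ℚ` is finite, `Ш(E/ℚ)[2] = 0`. -/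
def S_SQ : Prop := (∀ u v : ℤ, (u, v) ∈ SelG 0 9 (-7) → (u = 1 ∧ v = 1) ∨ (u = -7 ∧ v = -1) ∨
    (u = 21 ∧ v = 3) ∨ (u = -3 ∧ v = -3)) ∧
  Fin2 (X21.map (Int.castRingHom ℚ))

/-- K21-TOR. The torsion over `K`: eight times an odd number. (`(9, 0) = 2 (21, 84)`; the points `(0, 0)`,
`(-7, 0)` are not divisible by two, as `-9` and `7`, or `-7` and `-16`, are not both squares; the points of order
four `x = 21, -3` are not, as `3` and `-3` are not squares in `K`.) -/
def S_TOR : Prop := ∀ (m : ℤ) (K : Type) [Field K] [NumberField K] (r : K), Qd m K r →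
  Finite (AddCommGroup.torsion (base X21 K).toAffine.Point) ∧
  ∃ t : ℕ, Odd t ∧ Nat.card (AddCommGroup.torsion (base X21 K).toAffine.Point) = 8 * t

/-- the Euler product of the minimal equation `W` over `ℚ` at `s` is `f` (the product in `Y700.IsL`) -/
def Eul (W : WeierstrassCurve ℤ) (s f : ℂ) : Prop :=
  HasProd (fun p : Nat.Primes => (1 - (Pool.Agent.W97.MT.ap W p : ℂ) * ((p : ℕ) : ℂ) ^ (-s) +
      (if ((p : ℕ) : ℤ) ∣ W.Δ then 0 else ((p : ℕ) : ℂ) ^ (1 - 2 * s)))⁻¹) f

/-- K21-LPR. `L(E/K, s) = L(E/ℚ, s) L(E_m/ℚ, s)` as Euler products, with all the factors (`2` and `7` may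
ramify). (`ap` of the twists in `N637/P21/Ap.lean, ApE.lean`; compare `Pool/Agent/R428/OP/LProd.lean` and
K17-LPR.) -/
def S_LPR : Prop := ∀ (m : ℤ) (K : Type) [Field K] [NumberField K] (r : K), Qd m K r →
  ∀ (s f g : ℂ), 3 / 2 < s.re → Eul X21 s f → Eul (Tw m) s g →
  HasProd (factor (K := K) X21 s) (f * g)

/-- K21-TAM. The product of the Tamagawa numbers over `K`: `3` (inert, split multiplicative reduction,
`v(Δ) = 4`): `4`, generated by the class of the point `x = 21` of order four; `7` split: `2 * 2`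
(nonsplit, `v(Δ) = 2`), `7` ramified: `2` (nonsplit, `v(Δ) = 4`: `-9` is not a square in the residue field, so that
the points with singular reduction have `v(x) ≥ 2 = v(7)`, and form one class). -/
def S_TAM : Prop := ∀ (m : ℤ) (K : Type) [Field K] [NumberField K] (r : K), Qd m K r →
  {v : HeightOneSpectrum (𝓞 K) | c X21 v ≠ 1}.Finite ∧ Tam K X21 = if (7 : ℤ) ∣ m then 8 else 16

/-- K21-MIN. The equation is minimal at all the places of `K` (`v(Δ) ≤ 4 < 12`). -/
def S_MIN : Prop := ∀ (m : ℤ) (K : Type) [Field K] [NumberField K] (r : K), Qd m K r →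
  ∀ v : HeightOneSpectrum (𝓞 K), MinimalAt X21 v

/-- K21-DISC. The discriminant of `K`. -/
def S_DISC : Prop := ∀ (m : ℤ) (K : Type) [Field K] [NumberField K] (r : K), Qd m K r →
  discr K = if m % 4 = 1 then m else 4 * m

/-- K21-EXP. If `E(ℚ)` and `E_m(ℚ)` are finite and `Ш(E/ℚ)`, `Ш(E_m/ℚ)` have no element of order two then `E(K)` is
finite and `Ш(E/K)[2^∞]` is killed by two. (As in `R428/N` (`fin_iff`, `alg_exp`), `N856/QB`, `Y682/Theta.lean`: for a
class `x` the sum `x + σ x` is the restriction of the corestriction, and `x - σ x` comes from the twist.) -/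
def S_EXP : Prop := ∀ (m : ℤ) (K : Type) [Field K] [NumberField K] (r : K), Qd m K r →
  Fin2 (X21.map (Int.castRingHom ℚ)) → Fin2 ((Tw m).map (Int.castRingHom ℚ)) →
  Finite (base X21 K).toAffine.Point ∧
  ∀ (x : Pool.Agent.TH841.NF.D.Sha (base X21 K)) (k : ℕ), 2 ^ k • x = 0 → 2 • x = 0

/-- K21-RK (generic). The 2-descent over a number field without the hypothesis that the group of the points
is finite: `S_DESC` of `N856/QB/Stm.lean` (`N891/QB`) with the rank (`W(K) / 2 W(K)` has order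
`4 * 2 ^ rank` for a finitely generated group with four points of order `≤ 2`; Mordell-Weil: `N717/QB/Tor.lean:
fg_of`). -/
def S_RK : Prop := ∀ (K : Type) [Field K] [NumberField K] (W : WeierstrassCurve K) (a b c : ℤ),
  a ≠ b → a ≠ c → b ≠ c → IsR W (a : K) (b : K) (c : K) →
  ∀ S : Finset (K × K), (∀ z ∈ S, z ∈ Se K a b c) →
  (∀ z ∈ S, ∀ z' ∈ S, IsSquare (z.1 * z'.1) → IsSquare (z.2 * z'.2) → z = z') →
  (∀ z ∈ Se K a b c, ∃ z' ∈ S, IsSquare (z.1 * z'.1) ∧ IsSquare (z.2 * z'.2)) →
  AddGroup.FG W.toAffine.Point ∧ Finite {x : Pool.Agent.TH841.NF.D.Sha W // 2 • x = 0} ∧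
  S.card = 2 ^ Module.finrank ℤ W.toAffine.Point *
    (4 * Nat.card {x : Pool.Agent.TH841.NF.D.Sha W // 2 • x = 0})

end Pool.Agent.N637.K21
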