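import Pool.Agent.N916.TE.Tg
import Pool.Agent.N873.F15.Dn

/-!
# Project K21: the size of the family, and one field for each order of `Ш`
-/

set_option autoImplicit false

open Filter Topology

namespace Pool.Agent.N637.K21

open scoped Classical

/-- the discriminants `-n` such that `3` is not split and `7` is not inert -/
def FamN (n : ℕ) : Prop :=
  Pool.Agent.N916.TE.FD n ∧ n % 3 ≠ 2 ∧ (n % 7 = 0 ∨ n % 7 = 3 ∨ n % 7 = 5 ∨ n % 7 = 6)

/-- K21-DENS. The density of the family, `(45 / 128) (3 / π²)`. Every `n` of the family is `s g k` in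
exactly one way with `s ∈ {1, 4, 8}`, `g ∈ {1, 3, 7, 21}`, `k` squarefree and prime to `42`: `n = s o` with `o` odd
and squarefree (`s = 1`: `o % 4 = 3`; `s = 4`: `o % 4 = 1`; `s = 8`: `o` odd), `g = gcd (o, 21)`; the conditions
modulo `3` (if `3` does not divide `g`) and `7` (if `7` does not divide `g`) are conditions on `k` modulo `84`. Sum of
`Pool.Agent.N873.F15.Dn.sf_dens'` (`N = 84`) over the classes with `dens_mul`, `cnt_or`, as `dens_disc` and `dens_cl`
in `Pool/Agent/N873/F15/Fu.lean`. -/
def U_DENS : Prop :=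
  Tendsto (fun X : ℕ => (((Finset.Icc 1 X).filter fun n => FamN n).card : ℝ) / X) atTop
    (𝓝 (135 / (128 * Real.pi ^ 2)))

/-- K21-INF. For every `k` there are infinitely many `n = 1 mod 3` of the family with `k + 1` prime factors and no
class of order four. Adapt `infinite_star` in `Pool/Agent/N873/F15/St.lean`: centre `p = 19 mod 84` in the place of
`23 mod 60`, leaves `q = 1 mod 84`. (`Go n` is `Qc n` for odd `n`.) -/
def U_INF : Prop := ∀ k : ℕ, {n : ℕ | FamN n ∧ n % 3 = 1 ∧ n.primeFactors.card = k + 1 ∧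
  Pool.Agent.N916.TE.Go n}.Infinite

end Pool.Agent.N637.K21
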